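import Pool.Agent.Helper9.RC2.Goals
import Pool.Agent.Helper10.RC.Basic

/-!
# MP_b55b7c_an: packet RC2-STG, one stage of the absorption
-/

open scoped ENNReal NNReal InnerProductSpace ComplexOrder
open Filter Topology

attribute [-instance] CStarMatrix.instAlgebra CStarMatrix.instModule CStarMatrix.instSMul
  CStarMatrix.instMulAction CStarMatrix.instDistribMulAction

set_option linter.unusedSectionVars false

noncomputable section
namespace Pool.Agent.Helper94.RC2.STG
open RC
universe u

/-- A lower bound for the real part from a bound of the square. -/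
theorem lowB {D : Type u} [CStarAlgebra D] [PartialOrder D] [StarOrderedRing D] (X : D) (M : ℝ)
    (hM : 0 ≤ M) (h : star X * X ≤ M • (1 : D)) :
    0 ≤ X + star X + (2 * Real.sqrt M) • (1 : D) := by
  rcases hM.eq_or_lt with h0 | h0
  · rw [← h0, zero_smul] at h
    have h1 : star X * X = 0 := le_antisymm h (star_mul_self_nonneg X)
    have h2 : X = 0 := by
      have h3 := CStarRing.norm_star_mul_self (x := X)
      rw [h1, norm_zero] at h3
      exact norm_eq_zero.1 (mul_self_eq_zero.1 h3.symm)
    rw [h2, ← h0]
    simp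
  · set s : ℝ := Real.sqrt M with hs
    have hs0 : 0 < s := Real.sqrt_pos.2 h0
    have hss : s * s = M := Real.mul_self_sqrt hM
    have h1 : 0 ≤ star (s • (1 : D) + X) * (s • (1 : D) + X) := star_mul_self_nonneg _
    have h2 : star (s • (1 : D) + X) * (s • (1 : D) + X) =
        (s * s) • (1 : D) + s • (X + star X) + star X * X := by
      rw [star_add, star_smul, star_one, star_trivial, add_mul, mul_add, mul_add, smul_mul_assoc,
        smul_mul_assoc, one_mul, one_mul, mul_smul_comm s (star X) (1 : D), mul_one, smul_smul,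
        smul_add]
      abel
    rw [h2] at h1
    have h3 : 0 ≤ s • (X + star X + (2 * s) • (1 : D)) := by
      have h4 : (s * s) • (1 : D) + s • (X + star X) + star X * X ≤
          (s * s) • (1 : D) + s • (X + star X) + M • (1 : D) := by
        exact add_le_add le_rfl h
      refine (h1.trans h4).trans (le_of_eq ?_)
      rw [smul_add s (X + star X), smul_smul, ← hss]
      have h5 : (s * (2 * s)) • (1 : D) = (s * s) • (1 : D) + (s * s) • (1 : D) := by
        rw [← add_smul]
        congr 1
        ring
      rw [h5]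
      abel
    have h6 := smul_nonneg (inv_nonneg.2 hs0.le) h3
    rwa [inv_smul_smul₀ hs0.ne'] at h6

section
variable {A : Type u} [CStarAlgebra A] [PartialOrder A] [StarOrderedRing A]
variable {ι κ μ ν : Type} [Fintype ι] [DecidableEq ι] [Fintype κ] [DecidableEq κ]
  [Fintype μ] [DecidableEq μ] [Fintype ν] [DecidableEq ν]

theorem cmMulAdd (x : CStarMatrix ι κ A) (y z : CStarMatrix κ μ A) :
    x * (y + z) = x * y + x * z := Matrix.mul_add _ _ _

theorem cmAssoc4 (x : CStarMatrix ι κ A) (y : CStarMatrix κ μ A) (z : CStarMatrix μ κ A)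
    (w : CStarMatrix κ ι A) : (x * y) * (z * w) = x * (y * z) * w := by
  rw [cm_assoc x y, ← cm_assoc y z w, ← cm_assoc x]

theorem cmAddMul (x y : CStarMatrix ι κ A) (z : CStarMatrix κ μ A) :
    (x + y) * z = x * z + y * z := Matrix.add_mul _ _ _

end

theorem t : StgP.{u} := by
  intro A _ _ _ κ' κ n ν _ _ _ _ _ _ _ _ c y f u z S h e δ L d hδ hL hS huS huL hz he
  set W : CStarMatrix n ν A := (c * y).conjTranspose * f with hW
  set g : CStarMatrix κ' ν A := c * y * u with hg
  set X : CStarMatrix ν ν A := W.conjTranspose * u with hX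
  have hX1 : X = f.conjTranspose * g := by
    rw [hX, hW, hg, cm_conj_mul, cm_conj_conj, cm_assoc]
  have hX2 : star X = g.conjTranspose * f := by
    rw [← cm_star_eq, hX1, cm_conj_mul, cm_conj_conj]
  have hXX : star X * X = u.conjTranspose * (W * W.conjTranspose) * u := by
    rw [← cm_star_eq, hX, cm_conj_mul, cm_conj_conj]
    exact cmAssoc4 _ _ _ _
  have hM : star X * X ≤ (δ * L) • (1 : CStarMatrix ν ν A) := by
    rw [hXX]
    refine (cm_conj_le' u hS).trans (huS.trans ?_)
    rw [← smul_smul]
    exact smul_le_smul_of_nonneg_left huL hδ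
  have hlow := lowB X (δ * L) (mul_nonneg hδ hL) hM
  have hexp : (f + g).conjTranspose * (f + g) =
      f.conjTranspose * f + (X + star X) + g.conjTranspose * g := by
    rw [hX2, hX1, cm_conj_add, cmAddMul, cmMulAdd, cmMulAdd]
    abel
  have hgg : g.conjTranspose * g =
      u.conjTranspose * ((c * y).conjTranspose * (c * y)) * u := by
    rw [hg, cm_conj_mul]
    exact cmAssoc4 _ _ _ _
  have hz' : u.conjTranspose * z * u ≤ g.conjTranspose * g + u.conjTranspose * h * u := by
    refine (cm_conj_le' u hz).trans (le_of_eq ?_)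
    rw [hgg, cmMulAdd, cmAddMul]
  constructor
  · rw [hexp, ← sub_nonneg]
    have h1 := add_nonneg hlow (cm_conj_mul_nonneg g)
    refine h1.trans (le_of_eq ?_)
    abel
  · rw [hexp, ← sub_nonneg]
    have h1 := add_nonneg (add_nonneg (add_nonneg hlow (cm_conj_mul_nonneg f))
      (sub_nonneg.2 hz')) (sub_nonneg.2 he)
    refine h1.trans (le_of_eq ?_)
    rw [add_smul]
    abel

end Pool.Agent.Helper94.RC2.STG
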